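import Pool.Agent.W188.QS.Stm

set_option autoImplicit false

/-!
# Project QS, part JJ: the main oscillatory estimate
-/

open Complex MeasureTheory Set Filter Topology

namespace Pool.Agent.W131.QSJJ

open Pool.Agent.W188.QS

/-- the divisor function -/
noncomputable def dd (j n : ℕ) : ℝ :=
  (((ArithmeticFunction.zeta ^ j : ArithmeticFunction ℕ) n : ℕ) : ℝ)

theorem dd_nonneg (j n : ℕ) : 0 ≤ dd j n := Nat.cast_nonneg _

theorem dd_zero (j : ℕ) : dd j 0 = 0 := by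
  unfold dd
  rw [ArithmeticFunction.map_zero, Nat.cast_zero]

theorem dd_cast (j n : ℕ) :
    ((((ArithmeticFunction.zeta ^ j : ArithmeticFunction ℕ) n : ℕ)) : ℂ) = ((dd j n : ℝ) : ℂ) := by
  unfold dd
  rw [Complex.ofReal_natCast]

theorem fp_re (t : ℝ) : (fp t).re = 4 := by
  simp [fp]

theorem norm_cp (n : ℕ) (hn : 1 ≤ n) (t : ℝ) : ‖(n : ℂ) ^ (-fp t)‖ = (n : ℝ) ^ (-(4 : ℝ)) := by
  rw [Complex.norm_natCast_cpow_of_pos (by omega), Complex.neg_re, fp_re]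

theorem In_le1 (h1 : StMel)
    (h2 : ∀ T Δ ε σ : ℝ, 1 ≤ Δ → 0 < ε → ∀ n : ℕ, ‖Ke T Δ n σ ε‖ ≤ 5 / Δ)
    (T Δ : ℝ) (hΔ : 1 ≤ Δ) (n : ℕ) (hn : 1 ≤ n) : ‖In T Δ n‖ ≤ 10 * √Real.pi := by
  have hΔ0 : 0 < Δ := by linarith
  refine le_of_tendsto (h1 T Δ hΔ n hn).norm ?_
  filter_upwards [self_mem_nhdsWithin] with ε hε
  rw [norm_mul, Complex.norm_real, Real.norm_of_nonneg (by positivity)]
  have a := h2 T Δ ε 1 hΔ hε n
  have b := h2 T Δ ε (-1) hΔ hε n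
  calc √Real.pi * Δ * ‖Ke T Δ n 1 ε + Ke T Δ n (-1) ε‖
      ≤ √Real.pi * Δ * (5 / Δ + 5 / Δ) :=
        mul_le_mul_of_nonneg_left ((norm_add_le _ _).trans (add_le_add a b)) (by positivity)
    _ = 10 * √Real.pi := by
        field_simp
        ring

theorem In_le2 (h1 : StMel) (T Δ : ℝ) (hΔ : 1 ≤ Δ) (n : ℕ) (hn : 1 ≤ n) (c : ℝ)
    (h2 : ∀ ε σ : ℝ, 0 < ε → (σ = 1 ∨ σ = -1) → ‖Ke T Δ n σ ε‖ ≤ c) :
    ‖In T Δ n‖ ≤ √Real.pi * Δ * (2 * c) := by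
  have hΔ0 : 0 < Δ := by linarith
  refine le_of_tendsto (h1 T Δ hΔ n hn).norm ?_
  filter_upwards [self_mem_nhdsWithin] with ε hε
  rw [norm_mul, Complex.norm_real, Real.norm_of_nonneg (by positivity)]
  have a := h2 ε 1 hε (Or.inl rfl)
  have b := h2 ε (-1) hε (Or.inr rfl)
  refine mul_le_mul_of_nonneg_left ((norm_add_le _ _).trans ?_) (by positivity)
  linarith

theorem series (j : ℕ) (Cd : ℝ) (hbd : ∀ n : ℕ, dd j n ≤ Cd * (n : ℝ) ^ 2)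
    (hz : ∀ s : ℂ, 1 < s.re → riemannZeta s ^ j = ∑' n : ℕ, ((dd j n : ℝ) : ℂ) * (n : ℂ) ^ (-s))
    (T Δ : ℝ)
    (hI : ∀ n : ℕ, 1 ≤ n →
      Integrable (fun t : ℝ => (n : ℂ) ^ (-fp t) * XX (fp t) * GG T Δ (fp t))) :
    ∫ t : ℝ, riemannZeta (fp t) ^ j * XX (fp t) * GG T Δ (fp t) =
      ∑' n : ℕ, ((dd j n : ℝ) : ℂ) * In T Δ n := by
  have hFint : ∀ n : ℕ, Integrable (fun t : ℝ => ((dd j n : ℝ) : ℂ) *
      ((n : ℂ) ^ (-fp t) * XX (fp t) * GG T Δ (fp t))) := by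
    intro n
    rcases Nat.eq_zero_or_pos n with h | h
    · subst h
      simp only [dd_zero, Complex.ofReal_zero, zero_mul]
      exact integrable_zero _ _ _
    · exact (hI n h).const_mul _
  have hK : ∀ n : ℕ, ∫ t : ℝ, ‖((dd j n : ℝ) : ℂ) *
      ((n : ℂ) ^ (-fp t) * XX (fp t) * GG T Δ (fp t))‖ =
      dd j n * ((n : ℝ) ^ (-(4 : ℝ)) * ∫ t : ℝ, ‖XX (fp t) * GG T Δ (fp t)‖) := by
    intro n
    rcases Nat.eq_zero_or_pos n with h | h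
    · subst h
      simp only [dd_zero, Complex.ofReal_zero, zero_mul, norm_zero, integral_zero]
    · rw [← integral_const_mul, ← integral_const_mul]
      refine integral_congr_ae (Filter.Eventually.of_forall fun t => ?_)
      change ‖((dd j n : ℝ) : ℂ) * ((n : ℂ) ^ (-fp t) * XX (fp t) * GG T Δ (fp t))‖ =
        dd j n * ((n : ℝ) ^ (-(4 : ℝ)) * ‖XX (fp t) * GG T Δ (fp t)‖)
      rw [norm_mul, Complex.norm_real, Real.norm_of_nonneg (dd_nonneg j n), mul_assoc, norm_mul,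
        norm_cp n h]
  have hK0 : 0 ≤ ∫ t : ℝ, ‖XX (fp t) * GG T Δ (fp t)‖ :=
    integral_nonneg fun t => norm_nonneg _
  have hsum : Summable fun n : ℕ => ∫ t : ℝ, ‖((dd j n : ℝ) : ℂ) *
      ((n : ℂ) ^ (-fp t) * XX (fp t) * GG T Δ (fp t))‖ := by
    have hs : Summable fun n : ℕ => (Cd * ∫ t : ℝ, ‖XX (fp t) * GG T Δ (fp t)‖) *
        (n : ℝ) ^ (-(2 : ℝ)) :=
      (Real.summable_nat_rpow.2 (by norm_num)).mul_left _
    refine Summable.of_nonneg_of_le (fun n => integral_nonneg fun t => norm_nonneg _)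
      (fun n => ?_) hs
    rw [hK n]
    rcases Nat.eq_zero_or_pos n with h | h
    · subst h
      rw [dd_zero, zero_mul, Nat.cast_zero, Real.zero_rpow (by norm_num), mul_zero]
    · have hn : (0 : ℝ) < n := Nat.cast_pos.2 h
      have e : (n : ℝ) ^ 2 * (n : ℝ) ^ (-(4 : ℝ)) = (n : ℝ) ^ (-(2 : ℝ)) := by
        rw [← Real.rpow_natCast, ← Real.rpow_add hn]
        norm_num
      calc dd j n * ((n : ℝ) ^ (-(4 : ℝ)) * ∫ t : ℝ, ‖XX (fp t) * GG T Δ (fp t)‖)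
          ≤ (Cd * (n : ℝ) ^ 2) *
            ((n : ℝ) ^ (-(4 : ℝ)) * ∫ t : ℝ, ‖XX (fp t) * GG T Δ (fp t)‖) :=
            mul_le_mul_of_nonneg_right (hbd n) (by positivity)
        _ = (Cd * ∫ t : ℝ, ‖XX (fp t) * GG T Δ (fp t)‖) *
            ((n : ℝ) ^ 2 * (n : ℝ) ^ (-(4 : ℝ))) := by ring
        _ = _ := by rw [e]
  have h := (hasSum_integral_of_summable_integral_norm hFint hsum).tsum_eq
  have e1 : ∀ t : ℝ, ∑' n : ℕ, ((dd j n : ℝ) : ℂ) *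
      ((n : ℂ) ^ (-fp t) * XX (fp t) * GG T Δ (fp t)) =
      riemannZeta (fp t) ^ j * XX (fp t) * GG T Δ (fp t) := by
    intro t
    rw [hz (fp t) (by rw [fp_re]; norm_num), ← tsum_mul_right, ← tsum_mul_right]
    refine tsum_congr fun n => ?_
    ring
  simp only [e1] at h
  rw [← h]
  refine tsum_congr fun n => ?_
  unfold In
  rw [integral_const_mul]

theorem final (j : ℕ) (Cd C3 : ℝ) (hCd : 0 < Cd) (hC3 : 0 ≤ C3)
    (hsum : ∀ x : ℝ, 2 ≤ x → ∑ n ∈ Finset.Icc 1 ⌊x⌋₊, dd j n ≤ Cd * x * Real.log x ^ (j - 1))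
    (hbd : ∀ n : ℕ, dd j n ≤ Cd * (n : ℝ) ^ 2) (T Δ : ℝ) (hT : 4 ≤ T) (hl : 1 ≤ Real.log T)
    (hΔT : Δ ≤ T) (hΔ : 1 ≤ Δ) (I : ℕ → ℂ)
    (hI1 : ∀ n : ℕ, 1 ≤ n → ‖I n‖ ≤ 10 * √Real.pi)
    (hI2 : ∀ n : ℕ, 1 ≤ n → 2 * T ≤ n → ‖I n‖ ≤ √Real.pi * Δ * (2 * T ^ (-(12 : ℝ))))
    (hI3 : ∀ n : ℕ, 1 ≤ n → ‖I n‖ ≤ C3 * (n : ℝ) ^ (-(4 : ℝ)) * T ^ 5) :
    ‖∑' n : ℕ, ((dd j n : ℝ) : ℂ) * I n‖ ≤
      (10 * √Real.pi * (Cd * 2 * 2 ^ (j - 1)) + √Real.pi * 2 * Cd * 10 ^ (j - 1) +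
        Cd * C3 * ∑' n : ℕ, (n : ℝ) ^ (-(3 / 2 : ℝ))) * T * Real.log T ^ (j - 1) := by
  have hT0 : 0 < T := by linarith
  have hS : Summable fun n : ℕ => (n : ℝ) ^ (-(3 / 2 : ℝ)) :=
    Real.summable_nat_rpow.2 (by norm_num)
  have hS0 : 0 ≤ ∑' n : ℕ, (n : ℝ) ^ (-(3 / 2 : ℝ)) :=
    tsum_nonneg fun n => Real.rpow_nonneg (Nat.cast_nonneg _) _
  -- the three parts
  have g1 : HasSum (fun n : ℕ => if n ∈ Finset.Icc 1 ⌊2 * T⌋₊ then dd j n * (10 * √Real.pi) else 0)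
      (∑ n ∈ Finset.Icc 1 ⌊2 * T⌋₊,
        if n ∈ Finset.Icc 1 ⌊2 * T⌋₊ then dd j n * (10 * √Real.pi) else 0) :=
    hasSum_sum_of_ne_finset_zero fun b hb => if_neg hb
  have g2 : HasSum (fun n : ℕ => if n ∈ Finset.Icc 1 ⌊T ^ 10⌋₊ then
        dd j n * (√Real.pi * Δ * (2 * T ^ (-(12 : ℝ)))) else 0)
      (∑ n ∈ Finset.Icc 1 ⌊T ^ 10⌋₊,
        if n ∈ Finset.Icc 1 ⌊T ^ 10⌋₊ then
        dd j n * (√Real.pi * Δ * (2 * T ^ (-(12 : ℝ)))) else 0) :=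
    hasSum_sum_of_ne_finset_zero fun b hb => if_neg hb
  have g3 : HasSum (fun n : ℕ => Cd * C3 * (n : ℝ) ^ (-(3 / 2 : ℝ)))
      (Cd * C3 * ∑' n : ℕ, (n : ℝ) ^ (-(3 / 2 : ℝ))) := hS.hasSum.mul_left _
  have key := tsum_of_norm_bounded (f := fun n : ℕ => ((dd j n : ℝ) : ℂ) * I n)
    ((g1.add g2).add g3) (by
      intro n
      have p1 : 0 ≤ if n ∈ Finset.Icc 1 ⌊2 * T⌋₊ then dd j n * (10 * √Real.pi) else 0 := by
        split_ifs
        · have := dd_nonneg j n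
          positivity
        · exact le_rfl
      have p2 : 0 ≤ if n ∈ Finset.Icc 1 ⌊T ^ 10⌋₊ then
          dd j n * (√Real.pi * Δ * (2 * T ^ (-(12 : ℝ)))) else 0 := by
        split_ifs
        · have := dd_nonneg j n
          positivity
        · exact le_rfl
      have p3 : 0 ≤ Cd * C3 * (n : ℝ) ^ (-(3 / 2 : ℝ)) := by positivity
      rw [norm_mul, Complex.norm_real, Real.norm_of_nonneg (dd_nonneg j n)]
      rcases Nat.eq_zero_or_pos n with h | h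
      · subst h
        have hz0 : dd j 0 * ‖I 0‖ = 0 := by rw [dd_zero, zero_mul]
        rw [hz0]
        exact add_nonneg (add_nonneg p1 p2) p3
      · by_cases hn1 : (n : ℝ) < 2 * T
        · have hm : n ∈ Finset.Icc 1 ⌊2 * T⌋₊ := Finset.mem_Icc.2 ⟨h, Nat.le_floor hn1.le⟩
          have := mul_le_mul_of_nonneg_left (hI1 n h) (dd_nonneg j n)
          rw [if_pos hm] at p1 ⊢
          linarith
        · rw [not_lt] at hn1
          by_cases hn2 : (n : ℝ) ≤ T ^ 10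
          · have hm : n ∈ Finset.Icc 1 ⌊T ^ 10⌋₊ := Finset.mem_Icc.2 ⟨h, Nat.le_floor hn2⟩
            have := mul_le_mul_of_nonneg_left (hI2 n h hn1) (dd_nonneg j n)
            rw [if_pos hm] at p2 ⊢
            linarith
          · rw [not_le] at hn2
            have hn0 : (0 : ℝ) < n := Nat.cast_pos.2 h
            have h5 : T ^ 5 ≤ (n : ℝ) ^ (1 / 2 : ℝ) := by
              rw [← Real.sqrt_eq_rpow]
              apply Real.le_sqrt_of_sq_le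
              calc (T ^ 5) ^ 2 = T ^ 10 := by ring
                _ ≤ (n : ℝ) := hn2.le
            have h6 : dd j n * ‖I n‖ ≤ Cd * C3 * (n : ℝ) ^ (-(3 / 2 : ℝ)) := by
              calc dd j n * ‖I n‖ ≤ (Cd * (n : ℝ) ^ 2) * (C3 * (n : ℝ) ^ (-(4 : ℝ)) * T ^ 5) :=
                    mul_le_mul (hbd n) (hI3 n h) (norm_nonneg _) (by positivity)
                _ ≤ (Cd * (n : ℝ) ^ 2) * (C3 * (n : ℝ) ^ (-(4 : ℝ)) * (n : ℝ) ^ (1 / 2 : ℝ)) := by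
                    gcongr
                _ = Cd * C3 * ((n : ℝ) ^ 2 * (n : ℝ) ^ (-(4 : ℝ)) * (n : ℝ) ^ (1 / 2 : ℝ)) := by
                    ring
                _ = Cd * C3 * (n : ℝ) ^ (-(3 / 2 : ℝ)) := by
                    rw [← Real.rpow_natCast, ← Real.rpow_add hn0, ← Real.rpow_add hn0]
                    norm_num
            linarith)
  refine key.trans ?_
  have hlog0 : 0 ≤ Real.log T := by linarith
  have hpow1 : 1 ≤ Real.log T ^ (j - 1) := one_le_pow₀ hl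
  -- first sum
  have s1 : (∑ n ∈ Finset.Icc 1 ⌊2 * T⌋₊,
        if n ∈ Finset.Icc 1 ⌊2 * T⌋₊ then dd j n * (10 * √Real.pi) else 0) ≤
      10 * √Real.pi * (Cd * 2 * 2 ^ (j - 1)) * T * Real.log T ^ (j - 1) := by
    rw [Finset.sum_congr rfl fun n hn => if_pos hn, ← Finset.sum_mul]
    have hlog : Real.log (2 * T) ≤ 2 * Real.log T := by
      rw [Real.log_mul (by norm_num) (by positivity)]
      have : Real.log 2 ≤ Real.log T := Real.log_le_log (by norm_num) (by linarith)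
      linarith
    have hlog' : 0 ≤ Real.log (2 * T) := Real.log_nonneg (by linarith)
    calc (∑ n ∈ Finset.Icc 1 ⌊2 * T⌋₊, dd j n) * (10 * √Real.pi)
        ≤ (Cd * (2 * T) * Real.log (2 * T) ^ (j - 1)) * (10 * √Real.pi) :=
          mul_le_mul_of_nonneg_right (hsum (2 * T) (by linarith)) (by positivity)
      _ ≤ (Cd * (2 * T) * (2 * Real.log T) ^ (j - 1)) * (10 * √Real.pi) := by
          gcongr
      _ = _ := by
          rw [mul_pow]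
          ring
  have s2 : (∑ n ∈ Finset.Icc 1 ⌊T ^ 10⌋₊,
        if n ∈ Finset.Icc 1 ⌊T ^ 10⌋₊ then
        dd j n * (√Real.pi * Δ * (2 * T ^ (-(12 : ℝ)))) else 0) ≤
      √Real.pi * 2 * Cd * 10 ^ (j - 1) * T * Real.log T ^ (j - 1) := by
    rw [Finset.sum_congr rfl fun n hn => if_pos hn, ← Finset.sum_mul]
    have hT10 : 2 ≤ T ^ 10 := by
      calc (2 : ℝ) ≤ T := by linarith
        _ ≤ T ^ 10 := le_self_pow₀ (by linarith) (by norm_num)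
    have hlog : Real.log (T ^ 10) = 10 * Real.log T := by
      rw [Real.log_pow]
      norm_num
    have h12 : T ^ 10 * (T * T ^ (-(12 : ℝ))) ≤ T := by
      have : T ^ 10 * (T * T ^ (-(12 : ℝ))) = T ^ (-(1 : ℝ)) := by
        rw [← mul_assoc, ← pow_succ, ← Real.rpow_natCast, ← Real.rpow_add hT0]
        norm_num
      rw [this]
      calc T ^ (-(1 : ℝ)) ≤ T ^ (1 : ℝ) :=
            Real.rpow_le_rpow_of_exponent_le (by linarith) (by norm_num)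
        _ = T := Real.rpow_one T
    calc (∑ n ∈ Finset.Icc 1 ⌊T ^ 10⌋₊, dd j n) * (√Real.pi * Δ * (2 * T ^ (-(12 : ℝ))))
        ≤ (Cd * T ^ 10 * Real.log (T ^ 10) ^ (j - 1)) *
          (√Real.pi * Δ * (2 * T ^ (-(12 : ℝ)))) :=
          mul_le_mul_of_nonneg_right (hsum (T ^ 10) hT10) (by positivity)
      _ ≤ (Cd * T ^ 10 * Real.log (T ^ 10) ^ (j - 1)) *
          (√Real.pi * T * (2 * T ^ (-(12 : ℝ)))) := by
          have : 0 ≤ Real.log (T ^ 10) := by rw [hlog]; positivity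
          gcongr
      _ = √Real.pi * 2 * Cd * 10 ^ (j - 1) * (T ^ 10 * (T * T ^ (-(12 : ℝ)))) *
          Real.log T ^ (j - 1) := by
          rw [hlog, mul_pow]
          ring
      _ ≤ √Real.pi * 2 * Cd * 10 ^ (j - 1) * T * Real.log T ^ (j - 1) := by
          gcongr
  have s3 : Cd * C3 * ∑' n : ℕ, (n : ℝ) ^ (-(3 / 2 : ℝ)) ≤
      (Cd * C3 * ∑' n : ℕ, (n : ℝ) ^ (-(3 / 2 : ℝ))) * T * Real.log T ^ (j - 1) := by
    have h0 : 0 ≤ Cd * C3 * ∑' n : ℕ, (n : ℝ) ^ (-(3 / 2 : ℝ)) := by positivity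
    calc Cd * C3 * ∑' n : ℕ, (n : ℝ) ^ (-(3 / 2 : ℝ))
        = (Cd * C3 * ∑' n : ℕ, (n : ℝ) ^ (-(3 / 2 : ℝ))) * 1 * 1 := by ring
      _ ≤ _ := by
          gcongr
          linarith
  calc _ ≤ 10 * √Real.pi * (Cd * 2 * 2 ^ (j - 1)) * T * Real.log T ^ (j - 1) +
        √Real.pi * 2 * Cd * 10 ^ (j - 1) * T * Real.log T ^ (j - 1) +
        (Cd * C3 * ∑' n : ℕ, (n : ℝ) ^ (-(3 / 2 : ℝ))) * T * Real.log T ^ (j - 1) :=
        add_le_add (add_le_add s1 s2) s3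
    _ = _ := by ring

theorem qs_jj (h1 : Pool.Agent.W188.QS.StMel) (h2 : Pool.Agent.W188.QS.StKe)
    (h3 : Pool.Agent.W188.QS.StI3) (h4 : Pool.Agent.W188.QS.StDiv) : Pool.Agent.W188.QS.StJ := by
  intro k hk
  obtain ⟨h2a, B, T1, hB, h2b⟩ := h2
  obtain ⟨C3, -, h3b⟩ := h3
  obtain ⟨Cd, hCd, hsum, hbd, hz⟩ := h4 (2 * k) (by omega)
  have hC3 : 0 ≤ C3 := by
    have := (norm_nonneg _).trans (h3b 1 1 le_rfl le_rfl 1 le_rfl).2
    simpa using this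
  refine ⟨B, 10 * √Real.pi * (Cd * 2 * 2 ^ (2 * k - 1)) + √Real.pi * 2 * Cd * 10 ^ (2 * k - 1) +
        Cd * C3 * ∑' n : ℕ, (n : ℝ) ^ (-(3 / 2 : ℝ)), max T1 4, fun T Δ hT hΔ hBT => ?_⟩
  have hT1 : T1 ≤ T := (le_max_left _ _).trans hT
  have hT4 : 4 ≤ T := (le_max_right _ _).trans hT
  have hl : 1 ≤ Real.log T := by
    rw [Real.le_log_iff_exp_le (by linarith)]
    have := Real.exp_one_lt_d9
    linarith
  have hΔ1 : 1 ≤ Δ := hl.trans hΔ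
  have hΔT : Δ ≤ T := by
    have hs : 1 ≤ √(Real.log T) := by
      rw [Real.one_le_sqrt]
      exact hl
    have : 1 ≤ B * √(Real.log T) := one_le_mul_of_one_le_of_one_le hB hs
    nlinarith
  rw [series (2 * k) Cd hbd (fun s hs => by rw [(hz s hs).2]; simp only [dd_cast]) T Δ
    (fun n hn => (h3b T Δ hΔ1 hΔT n hn).1)]
  exact final (2 * k) Cd C3 hCd hC3 hsum hbd T Δ hT4 hl hΔT hΔ1 (In T Δ)
    (fun n hn => In_le1 h1 h2a T Δ hΔ1 n hn)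
    (fun n hn hn2 => In_le2 h1 T Δ hΔ1 n hn _
      (fun ε σ hε hσ => h2b T Δ ε σ hT1 hΔ hBT hε hσ n hn2))
    (fun n hn => (h3b T Δ hΔ1 hΔT n hn).2)

end Pool.Agent.W131.QSJJ
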